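import Pool.Agent.Helper98_AT3.Fxm
import Pool.Agent.Helper25_K9.ROT
import Pool.Agent.Helper46_PP.Alg
import Pool.Agent.Helper65_K9.AZR
import Pool.Agent.Helper69_KF.K4

/-!
# Squad AT3, row FIX: the sum over the blocks of the centraliser
-/

open scoped BigOperators

set_option linter.unusedSectionVars false

noncomputable section

namespace Pool.Agent.PP.T3.H98

open Pool.Agent.Helper51_AWC Pool.Agent.Helper79_WRA Pool.Agent.PP Pool.Agent.PP.KF
open Pool.Agent.PP.K9 Pool.Agent.PP.KF.H71 Pool.Agent.PP.KF.H92 Pool.Agent.PP.K9.H10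
open Pool.Agent.PP.K9.H97 Pool.Agent.PP.H75

attribute [local instance] Ideal.Quotient.field

section lift

variable {M : Ideal (integralClosure ℤ ℂ)} [M.IsMaximal] {H : Type} [Group H] [Finite H]

theorem om_add' [Fintype H] (a b χ : H → ℂ) : H50.om (a + b) χ = H50.om a χ + H50.om b χ := by
  unfold H50.om
  rw [← add_div, ← Finset.sum_add_distrib]
  congr 1
  refine Finset.sum_congr rfl fun t _ => ?_
  rw [Pi.add_apply, add_mul]

/-- the lift is additive -/
theorem eh_add {f₁ f₂ : H → FF M} (h₁ : IsIdem f₁) (h₂ : IsIdem f₂) (h : mulF f₁ f₂ = 0) :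
    eh M (f₁ + f₂) = eh M f₁ + eh M f₂ := by
  have := Fintype.ofFinite H
  apply KF.H25.ext_om (KF.H25.eh_cl _)
  · intro x y
    rw [Pi.add_apply, Pi.add_apply, KF.H25.eh_cl, KF.H25.eh_cl]
  · intro χ hχ
    rw [om_add']
    have h0 := H50.res_mul (M := M) h₁.1 h₂.1 hχ
    rw [h, H50.res_zero] at h0
    have h3 : res M (f₁ + f₂) χ = res M f₁ χ + res M f₂ χ := H50.res_add f₁ f₂ χ
    rcases H50.res_idem h₁ hχ with h1 | h1
    · have n1 : χ ∉ IrrE M f₁ := fun hx => by
        have := hx.2
        rw [h1] at this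
        exact zero_ne_one this
      rw [(KF.H25.eh_om f₁ hχ).2 n1, zero_add]
      rcases H50.res_idem h₂ hχ with h2 | h2
      · have n2 : χ ∉ IrrE M f₂ := fun hx => by
          have := hx.2
          rw [h2] at this
          exact zero_ne_one this
        rw [(KF.H25.eh_om f₂ hχ).2 n2]
        refine (KF.H25.eh_om _ hχ).2 fun hx => ?_
        have := hx.2
        rw [h3, h1, h2, add_zero] at this
        exact zero_ne_one this
      · rw [(KF.H25.eh_om f₂ hχ).1 ⟨hχ, h2⟩]
        refine (KF.H25.eh_om _ hχ).1 ⟨hχ, ?_⟩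
        rw [h3, h1, h2, zero_add]
    · rw [(KF.H25.eh_om f₁ hχ).1 ⟨hχ, h1⟩]
      rcases H50.res_idem h₂ hχ with h2 | h2
      · have n2 : χ ∉ IrrE M f₂ := fun hx => by
          have := hx.2
          rw [h2] at this
          exact zero_ne_one this
        rw [(KF.H25.eh_om f₂ hχ).2 n2, add_zero]
        refine (KF.H25.eh_om _ hχ).1 ⟨hχ, ?_⟩
        rw [h3, h1, h2, add_zero]
      · exfalso
        rw [h1, h2, one_mul] at h0
        exact zero_ne_one h0

theorem eh_zero : eh M (0 : H → FF M) = 0 := by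
  have h1 := eh_add (M := M) (H := H) H46.isIdem_zero H46.isIdem_zero (H46.mulF_zero 0)
  rw [add_zero] at h1
  have h2 : eh M (0 : H → FF M) + 0 = eh M (0 : H → FF M) + eh M (0 : H → FF M) := by
    rw [add_zero, ← h1]
  exact (add_left_cancel h2).symm

/-- the lift of the identity -/
theorem eh_one : eh M (dl (FF M) (1 : H)) = dl ℂ (1 : H) := by
  have := Fintype.ofFinite H
  classical
  apply KF.H25.ext_om (KF.H25.eh_cl _)
  · intro x y
    exact dl_cl x y
  · intro χ hχ
    have h1 : H50.om (dl ℂ (1 : H)) χ = 1 := by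
      unfold H50.om
      rw [Finset.sum_eq_single (1 : H)]
      · unfold dl
        rw [if_pos rfl, one_mul, div_self (irr_one_ne hχ)]
      · intro t _ ht
        unfold dl
        rw [if_neg ht, zero_mul]
      · intro h
        exact absurd (Finset.mem_univ _) h
    rw [h1]
    refine (KF.H25.eh_om _ hχ).1 ⟨hχ, ?_⟩
    exact H50.res_one (irr_one_ne hχ) (fun g => omega_integral _ hχ g)

end lift

/-- class functions are combinations of irreducible characters -/
theorem span_irr {H : Type} [Group H] [Finite H] {f : H → ℂ}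
    (hf : ∀ x y, f (y * x * y⁻¹) = f x) : f ∈ Submodule.span ℂ (Irr H) := by
  classical
  have := Fintype.ofFinite H
  have := Fintype.ofFinite (Irr H)
  have hc : (Fintype.card H : ℂ) ≠ 0 := by exact_mod_cast Fintype.card_ne_zero
  obtain ⟨a, ha⟩ : ∃ a : Irr H → ℂ, ∀ χ : Irr H, ∑ x, f x * (χ : H → ℂ) x⁻¹ =
      a χ * Fintype.card H :=
    ⟨fun χ => (∑ x, f x * (χ : H → ℂ) x⁻¹) / Fintype.card H, fun χ => by
      rw [div_mul_cancel₀ _ hc]⟩
  have h2 : f = ∑ χ : Irr H, a χ • (χ : H → ℂ) := by
    rw [← sub_eq_zero]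
    apply irr_complete'
    · intro g h
      simp only [Pi.sub_apply, Finset.sum_apply, Pi.smul_apply, hf]
      congr 1
      refine Finset.sum_congr rfl fun χ _ => ?_
      rw [irr_conj χ.2]
    · intro ψ hψ
      simp only [Pi.sub_apply, Finset.sum_apply, Pi.smul_apply, smul_eq_mul, sub_mul,
        Finset.sum_sub_distrib, Finset.sum_mul]
      rw [ha ⟨ψ, hψ⟩, Finset.sum_comm, Finset.sum_eq_single_of_mem ⟨ψ, hψ⟩ (Finset.mem_univ _)]
      · simp_rw [mul_assoc]
        rw [← Finset.mul_sum, irr_orth_self hψ, sub_self]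
      · intro χ _ hne
        simp_rw [mul_assoc]
        rw [← Finset.mul_sum, irr_orth_ne χ.2 hψ (fun h => hne (Subtype.ext h)), mul_zero]
  rw [h2]
  exact Submodule.sum_mem _ fun χ _ => Submodule.smul_mem _ _ (Submodule.subset_span χ.2)

/-- a central element acts by a scalar -/
theorem cent_mul {C : Type} [Group C] {θ : C → ℂ} (hθ : θ ∈ Irr C) {z : C}
    (hz : ∀ c, z * c = c * z) (c : C) : θ (z * c) = θ z / θ 1 * θ c := by
  have hne : θ 1 ≠ 0 := irr_one_ne hθ
  obtain ⟨n, ρ, hρ, rfl⟩ := hθ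
  obtain ⟨k, hk⟩ := schur_scalar ρ (ρ z) (by
    intro g
    have h1 : ρ z * ρ g = ρ g * ρ z := by rw [← map_mul, ← map_mul, hz]
    exact h1)
  have h1 : ∀ c, ρ.character (z * c) = k * ρ.character c := by
    intro c
    show LinearMap.trace ℂ _ (ρ (z * c)) = k * LinearMap.trace ℂ _ (ρ c)
    rw [map_mul, hk, smul_mul_assoc, map_smul, smul_eq_mul]
    rfl
  have h2 := h1 1
  rw [mul_one] at h2
  rw [h2, mul_div_cancel_right₀ _ hne, h1]

section proj

variable {M : Ideal (integralClosure ℤ ℂ)} [M.IsMaximal] {C : Type} [Group C] [Fintype C]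

/-- the projection to the characters of a block -/
theorem mem_span_blk (b : C → FF M) {z : C} (hz : ∀ c, z * c = c * z) {φ : C → ℂ}
    (hφ : φ ∈ Submodule.span ℂ (Irr C)) :
    (fun c => ∑ t, eh M b t * φ (z * c * t)) ∈ Submodule.span ℂ (IrrE M b) := by
  induction hφ using Submodule.span_induction with
  | mem θ hθ =>
    have h1 : (fun c => ∑ t, eh M b t * θ (z * c * t)) =
        (H50.om (eh M b) θ * (θ z / θ 1)) • θ := by
      funext c
      have h2 := H50.eigen (KF.H25.eh_cl (M := M) b) hθ (z * c)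
      have h3 : ∀ t, θ (z * c * t) = θ (t * (z * c)) := by
        intro t
        have := irr_conj hθ (t * (z * c)) t⁻¹
        rw [← this]
        congr 1
        group
      simp only [h3]
      rw [h2, cent_mul hθ hz c,
        Pi.smul_apply, smul_eq_mul]
      ring
    rw [h1]
    by_cases h : θ ∈ IrrE M b
    · exact Submodule.smul_mem _ _ (Submodule.subset_span h)
    · rw [(KF.H25.eh_om b hθ).2 h, zero_mul, zero_smul]
      exact Submodule.zero_mem _
  | zero =>
    have : (fun c => ∑ t, eh M b t * (0 : C → ℂ) (z * c * t)) = 0 := by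
      funext c
      simp
    rw [this]
    exact Submodule.zero_mem _
  | add f g _ _ hf hg =>
    have : (fun c => ∑ t, eh M b t * (f + g) (z * c * t)) =
        (fun c => ∑ t, eh M b t * f (z * c * t)) + (fun c => ∑ t, eh M b t * g (z * c * t)) := by
      funext c
      rw [Pi.add_apply, ← Finset.sum_add_distrib]
      refine Finset.sum_congr rfl fun t _ => ?_
      rw [Pi.add_apply, mul_add]
    rw [this]
    exact Submodule.add_mem _ hf hg
  | smul a f _ hf =>
    have : (fun c => ∑ t, eh M b t * (a • f) (z * c * t)) =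
        a • (fun c => ∑ t, eh M b t * f (z * c * t)) := by
      funext c
      rw [Pi.smul_apply, smul_eq_mul, Finset.mul_sum]
      refine Finset.sum_congr rfl fun t _ => ?_
      rw [Pi.smul_apply, smul_eq_mul]
      ring
    rw [this]
    exact Submodule.smul_mem _ _ hf

/-- the projection is self-adjoint -/
theorem proj_sum (b : C → FF M) {q : C → ℂ} (hq : q ∈ Submodule.span ℂ (IrrE M b)) (p : C → ℂ) :
    ∑ s, starRingEnd ℂ (q s) * p s = ∑ s, starRingEnd ℂ (q s) * ∑ c, eh M b c * p (s * c) := by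
  have h1 : ∀ s : C, starRingEnd ℂ (q s) * p s =
      ∑ c : C, eh M b c * starRingEnd ℂ (q (s * c⁻¹)) * p s := by
    intro s
    rw [← Finset.sum_mul, K9.H65.eh_act b hq]
  rw [Finset.sum_congr rfl fun s _ => h1 s, Finset.sum_comm]
  have h2 : ∀ c : C, ∑ s : C, eh M b c * starRingEnd ℂ (q (s * c⁻¹)) * p s =
      ∑ s : C, starRingEnd ℂ (q s) * (eh M b c * p (s * c)) := by
    intro c
    rw [← Equiv.sum_comp (Equiv.mulRight c)
      (fun s : C => eh M b c * starRingEnd ℂ (q (s * c⁻¹)) * p s)]
    refine Finset.sum_congr rfl fun s _ => ?_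
    rw [Equiv.coe_mulRight, mul_inv_cancel_right]
    ring
  rw [Finset.sum_congr rfl fun c _ => h2 c, Finset.sum_comm]
  refine Finset.sum_congr rfl fun s _ => ?_
  rw [Finset.mul_sum]

end proj

/-- the restriction to the centraliser of an `ℓ`-element -/
theorem idem_cu {ℓ : ℕ} [Fact ℓ.Prime] {F G : Type} [Field F] [Group G] [Finite G]
    (hF : GoodF ℓ F) {e : G → F} (he : IsIdem e) {u : G} (hu : El ℓ u) :
    IsIdem (fun t : Cu u => e t) := by
  have hc : Subgroup.centralizer (Subgroup.zpowers u : Set G) ≤ Cu u := by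
    refine Subgroup.centralizer_le ?_
    rw [Set.singleton_subset_iff]
    exact Subgroup.mem_zpowers u
  have hc' : Cu u ≤ Subgroup.centralizer (Subgroup.zpowers u : Set G) := by
    intro x hx
    rw [Subgroup.mem_centralizer_iff]
    rintro _ ⟨k, rfl⟩
    have : Commute x u := Subgroup.mem_centralizer_singleton_iff.1 hx
    exact (this.zpow_right k).eq.symm
  have hp : IsPGroup ℓ (Subgroup.zpowers u) := by
    obtain ⟨n, hn⟩ := hu
    rintro ⟨x, k, rfl⟩
    refine ⟨n, Subtype.ext ?_⟩
    change ((u ^ k) ^ ℓ ^ n : G) = 1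
    rw [← zpow_natCast, ← zpow_mul, mul_comm, zpow_mul, zpow_natCast, hn, one_zpow]
  have hn : Cu u ≤ Subgroup.normalizer (Subgroup.zpowers u : Set G) :=
    hc'.trans (Subgroup.centralizer_le_normalizer _)
  have h := (H20.brm ℓ F hF G (Subgroup.zpowers u) (Cu u) hp hc hn).2.2 e he
  have h2 : (fun t : Cu u => br (Subgroup.zpowers u) e t) = fun t : Cu u => e t := by
    funext t
    exact H66.br_of_mem (hc' t.2)
  rwa [h2] at h

/-- one `ℓ`-element -/
theorem fxy_sum (trg : TrgStmt) (cyc : CycStmt) (smg : SmgStmt) (rot : RotStmt)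
    (ℓ : ℕ) [Fact ℓ.Prime] (M : Ideal (integralClosure ℤ ℂ)) [M.IsMaximal]
    (hM : (ℓ : integralClosure ℤ ℂ) ∈ M) (G : Type) [Group G] [Fintype G] (N : ℕ)
    (hN : N.Coprime (Nat.card G)) (e : G → FF M) (he : IsIdem e) (y : G) (hy1 : y ≠ 1)
    (hy : El ℓ y)
    (hcj : ∀ b : G → FF M, Bx (Cu y) b →
      mulF (fun t : Cu y => e t) (fun t : Cu y => b t) = (fun t : Cu y => b t) →
      ∀ g : G, g * y * g⁻¹ = y ^ N → cj g b ≠ b) :
    ∑ᶠ (s : G) (_ : s ∈ Cu y ∧ Reg ℓ s), ∑ᶠ χ ∈ IrrE M e,
      χ (y ^ N * s) * starRingEnd ℂ (χ (y * s)) = 0 := by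
  classical
  have := Fintype.ofFinite (Cu y)
  have hF : GoodF ℓ (FF M) := H50.fld ℓ Fact.out M hM
  obtain ⟨y', hy'⟩ : ∃ y', y' = y ^ N := ⟨_, rfl⟩
  have hyC : y ∈ Cu y := u_mem y
  have hy'C : y' ∈ Cu y := by
    rw [hy']
    exact (Cu y).pow_mem hyC N
  have hz : ∀ c : Cu y, (⟨y', hy'C⟩ : Cu y) * c = c * ⟨y', hy'C⟩ := by
    intro c
    apply Subtype.ext
    change y' * (c : G) = c * y'
    rw [hy']
    have : Commute (c : G) y := Subgroup.mem_centralizer_singleton_iff.1 c.2
    exact (this.pow_right N).eq.symm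
  obtain ⟨S, hSdef⟩ : ∃ S, S = (K9.H25.irrE_finite M e).toFinset := ⟨_, rfl⟩
  have hS : ∀ χ ∈ S, χ ∈ IrrE M e := fun χ hχ => by
    rw [hSdef, Set.Finite.mem_toFinset] at hχ
    exact hχ
  -- the sum over one block
  let T : (Cu y → FF M) → ℂ := fun f => ∑ χ ∈ S, ∑ s : Cu y, if Reg ℓ (s : G) then
    gbv (Cu y) (y' * s) (eh M f) χ * starRingEnd ℂ (χ (y * s)) else 0
  have hreg : ∀ s : Cu y, Reg ℓ s ↔ Reg ℓ (s : G) := by
    intro s
    unfold Reg
    rw [Subgroup.orderOf_coe]
  have hT : ∀ f : Cu y → FF M, IsIdem f → T f = 0 := by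
    refine H46.idem_induction _ ?_ ?_ ?_
    · refine Finset.sum_eq_zero fun χ _ => Finset.sum_eq_zero fun s _ => ?_
      have h1 : gbv (Cu y) (y' * s) (eh M (0 : Cu y → FF M)) χ = 0 := by
        rw [gbv, finsum_eq_sum_of_fintype, eh_zero]
        simp
      rw [h1, zero_mul, ite_self]
    · intro b hb
      have hbx : Bx (Cu y) (PP.ext0 (Cu y) b) := by
        refine ⟨fun x hx => e0_supp y b x hx, ?_⟩
        have : (fun t : Cu y => PP.ext0 (Cu y) b t) = b := funext fun t => e0_app y b t
        rw [this]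
        exact hb
      have hbb : (fun t : Cu y => PP.ext0 (Cu y) b t) = b := funext fun t => e0_app y b t
      have heC : IsIdem (fun t : Cu y => e t) := by
        exact idem_cu hF he hy
      -- the second factor
      have hsec : ∀ χ ∈ S, ∑ s : Cu y, (if Reg ℓ (s : G) then
          gbv (Cu y) (y' * s) (eh M b) χ * starRingEnd ℂ (χ (y * s)) else 0) =
          ∑ s : Cu y, (if Reg ℓ (s : G) then
          gbv (Cu y) (y' * s) (eh M b) χ * starRingEnd ℂ (gbv (Cu y) (y * s) (eh M b) χ)
          else 0) := by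
        intro χ hχ
        have hχI : χ ∈ Irr G := (hS χ hχ).1
        have h1 : (fun c : Cu y => χ c) ∈ Submodule.span ℂ (Irr (Cu y)) := by
          apply span_irr
          intro a c
          have := irr_conj hχI (a : G) (c : G)
          exact this
        have h2 := mem_span_blk b hz h1
        have h3 := (rot ℓ M hM (Cu y) b hb.1).1 _ h2
        have h4 := proj_sum b h3 (fun s : Cu y => χ (y * s))
        have h5 : ∀ s : Cu y, ∑ t : Cu y, eh M b t * χ ((⟨y', hy'C⟩ * s * t : Cu y) : G) =
            gbv (Cu y) (y' * s) (eh M b) χ := by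
          intro s
          rw [gbv, finsum_eq_sum_of_fintype]
          rfl
        have h6 : ∀ s : Cu y, ∑ c : Cu y, eh M b c * χ (y * ((s * c : Cu y) : G)) =
            gbv (Cu y) (y * s) (eh M b) χ := by
          intro s
          rw [gbv, finsum_eq_sum_of_fintype]
          refine Finset.sum_congr rfl fun c _ => ?_
          rw [Subgroup.coe_mul, mul_assoc]
        have h7 := congrArg (starRingEnd ℂ) h4
        rw [map_sum, map_sum] at h7
        refine Eq.trans ?_ (h7.trans ?_)
        · refine Finset.sum_congr rfl fun s _ => ?_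
          rw [map_mul, Complex.conj_conj]
          simp only [hreg]
          rw [h5]
          split_ifs
          · rfl
          · rw [zero_mul]
        · refine Finset.sum_congr rfl fun s _ => ?_
          rw [map_mul, Complex.conj_conj]
          simp only [hreg]
          rw [h5, h6]
          split_ifs
          · rfl
          · rw [zero_mul]
      change ∑ χ ∈ S, _ = _
      rw [Finset.sum_congr rfl hsec]
      rcases hb.2.2 _ heC with h1 | h1
      · have h1' : mulF (fun t : Cu y => e t) b = b := by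
          rw [H46.mulF_comm heC.1, h1]
        rw [Finset.sum_comm]
        refine Finset.sum_eq_zero fun s _ => ?_
        by_cases hs : Reg ℓ (s : G)
        · simp only [if_pos hs]
          have h2 := blk_trace trg cyc ℓ M hM G N hN y s hy s.2 hs _ hbx (by
            refine hcj _ hbx ?_
            rw [hbb, h1'])
          rw [hbb, ← hy'] at h2
          have h3 := (smg ℓ M hM G y s hy1 hy s.2 hs b hb.1 e he).1 h1'
          rw [finsum_mem_eq_finite_toFinset_sum _ (irr_finite' (G := G))] at h2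
          rw [← h2]
          apply Finset.sum_subset
          · intro χ hχ
            exact (Set.Finite.mem_toFinset _).2 (hS χ hχ).1
          · intro χ hχ hne
            rw [h3 χ ((Set.Finite.mem_toFinset _).1 hχ) (fun h => hne (by
              rw [hSdef, Set.Finite.mem_toFinset]
              exact h)), map_zero, mul_zero]
        · simp only [if_neg hs]
          exact Finset.sum_const_zero
      · have h1' : mulF (fun t : Cu y => e t) b = 0 := by
          rw [H46.mulF_comm heC.1, h1]
        refine Finset.sum_eq_zero fun χ hχ => Finset.sum_eq_zero fun s _ => ?_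
        by_cases hs : Reg ℓ (s : G)
        · rw [if_pos hs, (smg ℓ M hM G y s hy1 hy s.2 hs b hb.1 e he).2 h1' χ (hS χ hχ), map_zero,
            mul_zero]
        · rw [if_neg hs]
    · intro f₁ f₂ h1 h2 h12 p1 p2
      have h3 : T (f₁ + f₂) = T f₁ + T f₂ := by
        change ∑ χ ∈ S, _ = ∑ χ ∈ S, _ + ∑ χ ∈ S, _
        rw [← Finset.sum_add_distrib]
        refine Finset.sum_congr rfl fun χ _ => ?_
        rw [← Finset.sum_add_distrib]
        refine Finset.sum_congr rfl fun s _ => ?_
        by_cases hs : Reg ℓ (s : G)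
        · rw [if_pos hs, if_pos hs, if_pos hs, ← add_mul]
          congr 1
          rw [gbv, gbv, gbv, finsum_eq_sum_of_fintype, finsum_eq_sum_of_fintype,
            finsum_eq_sum_of_fintype, ← Finset.sum_add_distrib, eh_add h1 h2 h12]
          refine Finset.sum_congr rfl fun t _ => ?_
          rw [Pi.add_apply, add_mul]
        · rw [if_neg hs, if_neg hs, if_neg hs, add_zero]
      rw [h3, p1, p2, add_zero]
  have h1 := hT (dl (FF M) (1 : Cu y)) H46.isIdem_one
  have h2 : ∀ (g : G) (χ : G → ℂ), gbv (Cu y) g (eh M (dl (FF M) (1 : Cu y))) χ = χ g := by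
    intro g χ
    rw [gbv, finsum_eq_sum_of_fintype, eh_one, Finset.sum_eq_single (1 : Cu y)]
    · unfold dl
      rw [if_pos rfl, one_mul, Subgroup.coe_one, mul_one]
    · intro t _ ht
      unfold dl
      rw [if_neg ht, zero_mul]
    · intro h
      exact absurd (Finset.mem_univ _) h
  change ∑ χ ∈ S, _ = _ at h1
  simp only [h2] at h1
  rw [← h1, Finset.sum_comm, ← hy']
  have h3 : ∀ s : G, ∑ᶠ χ ∈ IrrE M e, χ (y' * s) * starRingEnd ℂ (χ (y * s)) =
      ∑ χ ∈ S, χ (y' * s) * starRingEnd ℂ (χ (y * s)) := by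
    intro s
    rw [finsum_mem_eq_finite_toFinset_sum _ (K9.H25.irrE_finite M e), hSdef]
  simp only [h3]
  rw [finsum_eq_sum_of_fintype]
  have h4 : ∀ s : G, (∑ᶠ (_ : s ∈ Cu y ∧ Reg ℓ s),
      ∑ χ ∈ S, χ (y' * s) * starRingEnd ℂ (χ (y * s))) =
      if s ∈ Cu y then (if Reg ℓ s then ∑ χ ∈ S, χ (y' * s) * starRingEnd ℂ (χ (y * s)) else 0)
        else 0 := by
    intro s
    rw [finsum_eq_if, ite_and]
  rw [Finset.sum_congr rfl fun s _ => h4 s, ← Finset.sum_filter]
  rw [Finset.sum_subtype (Finset.univ.filter fun s => s ∈ Cu y) (p := fun s => s ∈ Cu y)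
    (by intro x; simp)]
  refine Finset.sum_congr rfl fun s _ => ?_
  by_cases hs : Reg ℓ (s : G)
  · rw [if_pos hs]
    refine Finset.sum_congr rfl fun χ _ => ?_
    rw [if_pos hs]
  · rw [if_neg hs]
    symm
    refine Finset.sum_eq_zero fun χ _ => ?_
    rw [if_neg hs]

end Pool.Agent.PP.T3.H98
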