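import Pool.Agent.Helper98_AT3.Fxs
import Pool.Agent.Helper23_AT3.RTC
import Pool.Agent.Helper27_K9.PRT

/-!
# Squad AT3, row FIX: the number of the characters fixed by the power map
-/

open scoped BigOperators

set_option linter.unusedSectionVars false

noncomputable section

namespace Pool.Agent.PP.T3.H98

open Pool.Agent.Helper51_AWC Pool.Agent.Helper79_WRA Pool.Agent.PP Pool.Agent.PP.KF
open Pool.Agent.PP.K9 Pool.Agent.PP.KF.H71 Pool.Agent.PP.KF.H92 Pool.Agent.PP.K9.H10
open Pool.Agent.PP.K9.H97 Pool.Agent.PP.H75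

attribute [local instance] Ideal.Quotient.field

/-- the singular elements are the products `y s` -/
theorem sing_sum {ℓ : ℕ} [Fact ℓ.Prime] {G : Type} [Group G] [Fintype G] (F : G → ℂ)
    (h : ∀ y : G, y ≠ 1 → El ℓ y → ∑ᶠ (s : G) (_ : s ∈ Cu y ∧ Reg ℓ s), F (y * s) = 0) :
    ∑ᶠ (g : G) (_ : ¬ Reg ℓ g), F g = 0 := by
  classical
  obtain ⟨K, hK1, hK2⟩ := K9.H27.prt ℓ G
  have e0 : ∀ (p : G → Prop) [DecidablePred p] (f : G → ℂ), ∑ᶠ (g : G) (_ : p g), f g =
      ∑ g ∈ Finset.univ.filter p, f g := by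
    intro p _ f
    rw [finsum_eq_sum_of_fintype, Finset.sum_filter]
    exact Finset.sum_congr rfl fun g _ => finsum_eq_if
  rw [e0, ← Finset.sum_fiberwise (Finset.univ.filter fun g : G => ¬ Reg ℓ g)
    (fun g : G => (g ^ K)⁻¹ * g) F]
  refine Finset.sum_eq_zero fun y _ => ?_
  by_cases hy1 : y = 1
  · apply Finset.sum_eq_zero
    intro g hg
    exfalso
    rw [Finset.mem_filter, Finset.mem_filter] at hg
    have h1 : g ^ K = g := by
      have := hg.2
      rw [hy1] at this
      exact inv_mul_eq_one.1 this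
    apply hg.1.2
    rw [← h1]
    exact (hK1 g).1
  · by_cases hy : El ℓ y
    · rw [← h y hy1 hy, e0]
      refine Finset.sum_bij' (fun g _ => g ^ K) (fun s _ => y * s) ?_ ?_ ?_ ?_ ?_
      · intro g hg
        rw [Finset.mem_filter, Finset.mem_filter] at hg
        rw [Finset.mem_filter]
        refine ⟨Finset.mem_univ _, ?_, (hK1 g).1⟩
        rw [Subgroup.mem_centralizer_singleton_iff, ← hg.2]
        have hc : Commute (g ^ K) ((g ^ K)⁻¹ * g) :=
          ((Commute.refl (g ^ K)).inv_right).mul_right ((Commute.refl g).pow_left K)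
        exact hc.eq
      · intro s hs
        rw [Finset.mem_filter] at hs
        have hc : Commute s y := Subgroup.mem_centralizer_singleton_iff.1 hs.2.1
        have h1 : (y * s) ^ K = s := by
          rw [← hc.eq]
          exact hK2 s y hc hs.2.2 hy
        rw [Finset.mem_filter, Finset.mem_filter]
        refine ⟨⟨Finset.mem_univ _, ?_⟩, ?_⟩
        · intro hr
          have h2 := hK2 (y * s) 1 (Commute.one_right _) hr ⟨0, one_pow _⟩
          rw [mul_one, h1] at h2
          exact hy1 (mul_eq_right.1 h2.symm)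
        · change ((y * s) ^ K)⁻¹ * (y * s) = y
          rw [h1, ← hc.eq, inv_mul_cancel_left]
      · intro g hg
        rw [Finset.mem_filter] at hg
        change y * g ^ K = g
        rw [← hg.2]
        have hc : Commute (g ^ K) g := (Commute.refl g).pow_left K
        rw [mul_assoc, ← hc.eq, inv_mul_cancel_left]
      · intro s hs
        rw [Finset.mem_filter] at hs
        have hc : Commute s y := Subgroup.mem_centralizer_singleton_iff.1 hs.2.1
        change (y * s) ^ K = s
        rw [← hc.eq]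
        exact hK2 s y hc hs.2.2 hy
      · intro g hg
        rw [Finset.mem_filter] at hg
        have hc : Commute (g ^ K) g := (Commute.refl g).pow_left K
        have : y * g ^ K = g := by
          rw [← hg.2, mul_assoc, ← hc.eq, inv_mul_cancel_left]
        rw [this]
    · apply Finset.sum_eq_zero
      intro g hg
      exfalso
      rw [Finset.mem_filter] at hg
      apply hy
      rw [← hg.2]
      exact (hK1 g).2

theorem fix (trg : TrgStmt) (cyc : CycStmt) (smg : SmgStmt) (rot : RotStmt) (ada : AdaStmt)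
    (wbo : WboStmt) (idm : KF.IdmStmt) : FixStmt := by
  intro ℓ _ M _ hM G _ _ N hN e he hcj
  classical
  have := Fintype.ofFinite G
  have hrtc := (H23.rtc' ada wbo idm ℓ M hM G N hN.cop hN.reg e he).2
  obtain ⟨S, hSdef⟩ : ∃ S, S = (K9.H25.irrE_finite M e).toFinset := ⟨_, rfl⟩
  have hS : ∀ χ, χ ∈ S ↔ χ ∈ IrrE M e := fun χ => by rw [hSdef, Set.Finite.mem_toFinset]
  have hc : (Fintype.card G : ℂ) ≠ 0 := by exact_mod_cast Fintype.card_ne_zero
  have hset : {χ | χ ∈ IrrE M e ∧ ∀ g, χ (g ^ N) = χ g} =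
      ((S.filter fun χ => ∀ g, χ (g ^ N) = χ g : Finset (G → ℂ)) : Set (G → ℂ)) := by
    ext χ
    simp [hS]
  have hF : ∀ F : (G → ℂ) → ℂ, ∑ᶠ χ ∈ IrrE M e, F χ = ∑ χ ∈ S, F χ := by
    intro F
    rw [finsum_mem_eq_finite_toFinset_sum _ (K9.H25.irrE_finite M e), hSdef]
  have h1 : ∀ χ ∈ S, ∑ g : G, χ (g ^ N) * starRingEnd ℂ (χ g) =
      if (∀ g, χ (g ^ N) = χ g) then (Fintype.card G : ℂ) else 0 := by
    intro χ hχ
    have hI := ((hS χ).1 hχ).1
    have hI' := (hrtc χ ((hS χ).1 hχ)).1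
    have h2 : ∑ g : G, χ (g ^ N) * starRingEnd ℂ (χ g) =
        ∑ g : G, (fun g => χ (g ^ N)) g * χ g⁻¹ :=
      Finset.sum_congr rfl fun g _ => by rw [H94.irr_star hI]
    rw [h2]
    by_cases h : ∀ g, χ (g ^ N) = χ g
    · rw [if_pos h]
      have h3 : (fun g => χ (g ^ N)) = χ := funext h
      rw [h3, irr_orth_self hI]
    · rw [if_neg h, irr_orth_ne hI' hI]
      intro h3
      exact h fun g => congrFun h3 g
  have h2 : (Fintype.card G : ℂ) *
      ({χ | χ ∈ IrrE M e ∧ ∀ g, χ (g ^ N) = χ g}.ncard : ℂ) =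
      ∑ g : G, ∑ χ ∈ S, χ (g ^ N) * starRingEnd ℂ (χ g) := by
    rw [Finset.sum_comm, Finset.sum_congr rfl h1, ← Finset.sum_filter, Finset.sum_const, hset,
      Set.ncard_coe_finset, nsmul_eq_mul, mul_comm]
  have h3 := sing_sum (ℓ := ℓ) (G := G) (fun g => ∑ χ ∈ S, χ (g ^ N) * starRingEnd ℂ (χ g)) (by
    intro y hy1 hy
    rw [← fxy_sum trg cyc smg rot ℓ M hM G N hN.cop e he y hy1 hy (hcj y hy1 hy)]
    refine finsum_congr fun s => finsum_congr fun hs => ?_
    rw [hF]
    refine Finset.sum_congr rfl fun χ _ => ?_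
    have hc : Commute y s := (show Commute s y from
      Subgroup.mem_centralizer_singleton_iff.1 hs.1).symm
    rw [hc.mul_pow, hN.reg s hs.2])
  have e0 : ∀ (p : G → Prop) [DecidablePred p] (f : G → ℂ), ∑ᶠ (g : G) (_ : p g), f g =
      ∑ g ∈ Finset.univ.filter p, f g := by
    intro p _ f
    rw [finsum_eq_sum_of_fintype, Finset.sum_filter]
    exact Finset.sum_congr rfl fun g _ => finsum_eq_if
  rw [e0] at h3
  have h4 : (Fintype.card G : ℂ) *
      ({χ | χ ∈ IrrE M e ∧ ∀ g, χ (g ^ N) = χ g}.ncard : ℂ) =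
      ∑ᶠ (s : G) (_ : Reg ℓ s), ∑ᶠ χ ∈ IrrE M e, χ s * starRingEnd ℂ (χ s) := by
    rw [h2, ← Finset.sum_filter_add_sum_filter_not Finset.univ (fun g => Reg ℓ g), h3, add_zero,
      e0]
    refine Finset.sum_congr rfl fun s hs => ?_
    rw [Finset.mem_filter] at hs
    rw [hF, hN.reg s hs.2]
  rw [← h4, Nat.card_eq_fintype_card, inv_mul_cancel_left₀ hc]

end Pool.Agent.PP.T3.H98
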