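import Pool.Agent.Helper66_K9.Asm
import Pool.Agent.Helper98_AT3.FIX
import Pool.Agent.Helper72_AT3.ARI
import Pool.Agent.Helper89_AT3.BES2
import Pool.Agent.Helper49_AT3.BRG
import Pool.Agent.Helper86_AT3.CEN
import Pool.Agent.Helper88_AT3.Cgr
import Pool.Agent.Helper88_AT3.Cgz
import Pool.Agent.Helper41_AT3.CHA
import Pool.Agent.Helper49_AT3.CNT
import Pool.Agent.Helper83_AT3.CO1
import Pool.Agent.Helper62_AT3.CO2
import Pool.Agent.Helper89_AT3.CYC
import Pool.Agent.Helper41_AT3.DGC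
import Pool.Agent.Helper3_AT3.DUG
import Pool.Agent.Helper24_AT3.DVS
import Pool.Agent.Helper69_AT3.Flt
import Pool.Agent.Helper66_AT3.Fnt
import Pool.Agent.Helper79_AT3.FUS
import Pool.Agent.Helper38_AT3.GCH
import Pool.Agent.Helper56_AT3.GLP
import Pool.Agent.Helper76_AT3.GSM
import Pool.Agent.Helper63_AT3.INR
import Pool.Agent.Helper49_AT3.LBE
import Pool.Agent.Helper62_AT3.LCJ
import Pool.Agent.Helper88_AT3.Loc
import Pool.Agent.Helper38_AT3.LPW
import Pool.Agent.Helper43_AT3.LRK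
import Pool.Agent.Helper85_AT3.LSB
import Pool.Agent.Helper72_AT3.NIB
import Pool.Agent.Helper41_AT3.NIL
import Pool.Agent.Helper41_AT3.NIT
import Pool.Agent.Helper38_AT3.POS
import Pool.Agent.Helper49_AT3.PRM
import Pool.Agent.Helper53_AT3.PSG
import Pool.Agent.Helper65_AT3.QT1
import Pool.Agent.Helper43_AT3.QT2
import Pool.Agent.Helper41_AT3.RGL
import Pool.Agent.Helper28_AT3.REC
import Pool.Agent.Helper14_AT3.RIN
import Pool.Agent.Helper17_AT3.RSV
import Pool.Agent.Helper56_AT3.SMG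
import Pool.Agent.Helper41_AT3.T3A
import Pool.Agent.Helper23_AT3.TRG

/-!
# Squad AT3: the statements, closed
-/

noncomputable section

namespace Pool.Agent.PP.T3

theorem trg_ : TrgStmt := H23.trg
theorem cyc_ : CycStmt := H89.cyc
theorem smg_ : SmgStmt := H56.smg trg_ cyc_
theorem fix_ : FixStmt := H98.fix trg_ cyc_ smg_ K9.rot_ K9.ada_ K9.wbo_ KF.H25.idm
theorem ari_ : AriStmt := H72.ari
theorem bes_ : BesStmt := H89.bes
theorem co1_ : Co1Stmt := H83.co1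
theorem co2_ : Co2Stmt := H62.co2
theorem lsb_ : LsbStmt := H85.lsb
theorem nvt_ : NvtStmt := H85.nvt
theorem fus_ : FusStmt := H79.fus lsb_
theorem psg_ : PsgStmt := H53.psg
theorem cen_ : CenStmt := H86.cen psg_
theorem loc_ : LocStmt := H88.loc
theorem lpw_ : LpwStmt := H38.lpw
theorem inr_ : InrStmt := H63.inr
theorem glp_ : GlpStmt := H56.glp
theorem gsm_ : GsmStmt := H76.gsm loc_ lsb_ lpw_ inr_ glp_
theorem nib_ : NibStmt := H72.nib fus_ co1_ co2_ bes_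
theorem nil_ : NilStmt := H41.nil loc_ lsb_ cen_ gsm_ nib_ co1_
theorem rgl_ : RglStmt := H41.rgl loc_ lsb_ nil_
theorem brg_ : BrgStmt := H49.brg co1_ co2_ fus_ bes_ rgl_ loc_
theorem rsv_ : RsvStmt := H17.rsv
theorem nit_ : NitStmt := H41.nit loc_ lsb_ nil_ inr_ rsv_
theorem cgr_ : CgrStmt := H88.cgr rsv_ nit_ lsb_ rgl_
theorem dgc_ : DgcStmt := H41.dgc cen_
theorem cgz_ : CgzStmt := H88.cgz cgr_ dgc_ loc_
theorem rec__ : RecStmt := H28.rec_
theorem cha_ : ChaStmt := H41.cha rec__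
theorem cnt_ : CntStmt := H49.cnt
theorem dug_ : DugStmt := H3.dug
theorem lcj_ : LcjStmt := H62.lcj
theorem gch_ : GchStmt := H38.gch lcj_
theorem nst_ : NstStmt := H3.nst dug_ fus_ gch_ lcj_ lpw_
theorem dvs_ : DvsStmt := H24.dvs
theorem flt_ : FltStmt := H69.flt
theorem prm_ : PrmStmt := H49.prm
theorem lrk_ : LrkStmt := H43.lrk K9.rot_
theorem rin_ : RinStmt := H14.rin K9.wbo_ inr_
theorem pos_ : PosStmt := H38.pos
theorem qt1_ : Qt1Stmt := H65.qt1 dug_ psg_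
theorem qt2_ : Qt2Stmt := H43.qt2 psg_ gch_
theorem qtd_ : QtdStmt := H41.qtd qt1_ lcj_ qt2_
theorem lbe_ : LbeStmt := H49.lbe prm_ fix_ nst_ lrk_ rgl_ rin_ cgz_ brg_ cnt_ ari_ lsb_ K9.nz_
theorem t3a_ : T3aStmt := H41.t3a qtd_ cha_ lbe_ dvs_ pos_ nvt_
theorem fnt_ : FntStmt := H66.fnt psg_ flt_ qtd_ qt1_ t3a_

end Pool.Agent.PP.T3
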