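import Pool.Agent.AT3.Stmts1
import Pool.Agent.Helper10_K9.SM2

/-!
# Squad AT3, row FIX: the trace for one block of the centraliser
-/

open scoped BigOperators

set_option linter.unusedSectionVars false

noncomputable section

namespace Pool.Agent.PP.T3.H98

open Pool.Agent.Helper51_AWC Pool.Agent.Helper79_WRA Pool.Agent.PP Pool.Agent.PP.KF
open Pool.Agent.PP.K9 Pool.Agent.PP.KF.H71 Pool.Agent.PP.KF.H92 Pool.Agent.PP.K9.H10
open Pool.Agent.PP.K9.H97 Pool.Agent.PP.H75

attribute [local instance] Ideal.Quotient.field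

section mat

variable {K n : Type} [Field K] [Fintype n] [DecidableEq n]

/-- the permutation matrix -/
def pm (K : Type) [Field K] (σ : Equiv.Perm n) : Matrix n n K :=
  Matrix.of fun x t => if σ x = t then 1 else 0

theorem pm_mul (σ : Equiv.Perm n) (A : Matrix n n K) (x t : n) :
    (pm K σ * A) x t = A (σ x) t := by
  rw [Matrix.mul_apply]
  simp [pm]

theorem mul_pm (σ : Equiv.Perm n) (A : Matrix n n K) (x t : n) :
    (A * pm K σ) x t = A x (σ⁻¹ t) := by
  rw [Matrix.mul_apply, Finset.sum_eq_single (σ⁻¹ t)]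
  · simp [pm]
  · intro b _ hb
    rw [pm, Matrix.of_apply, if_neg, mul_zero]
    intro h
    apply hb
    rw [← h]
    simp
  · intro h
    exact absurd (Finset.mem_univ _) h

theorem pm_one : pm K (1 : Equiv.Perm n) = 1 := by
  ext x t
  rw [pm, Matrix.of_apply, Matrix.one_apply]
  rfl

theorem pm_pm (σ τ : Equiv.Perm n) : pm K σ * pm K τ = pm K (τ * σ) := by
  ext x t
  rw [pm_mul]
  rfl

theorem pm_pow (σ : Equiv.Perm n) (i : ℕ) : pm K σ ^ i = pm K (σ ^ i) := by
  induction i with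
  | zero => rw [pow_zero, pow_zero, pm_one]
  | succ i ih => rw [pow_succ, ih, pm_pm, pow_succ']

theorem pm_diag (σ : Equiv.Perm n) (d : n → K) (i : ℕ) :
    pm K σ ^ i * Matrix.diagonal d * pm K σ⁻¹ ^ i = Matrix.diagonal (fun x => d ((σ ^ i) x)) := by
  ext x t
  rw [pm_pow, pm_pow, mul_pm, pm_mul, Matrix.diagonal_apply, Matrix.diagonal_apply]
  have e : (σ⁻¹ ^ i)⁻¹ t = (σ ^ i) t := by rw [inv_pow, inv_inv]
  rw [e]
  by_cases h : x = t
  · rw [h, if_pos rfl, if_pos rfl]
  · rw [if_neg h, if_neg fun h' => h ((σ ^ i).injective h')]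

theorem pm_diag_comm (σ : Equiv.Perm n) (d : n → K) (h : ∀ x, d (σ x) = d x) :
    Matrix.diagonal d * pm K σ = pm K σ * Matrix.diagonal d := by
  ext x t
  rw [mul_pm, pm_mul, Matrix.diagonal_apply, Matrix.diagonal_apply]
  by_cases h' : σ x = t
  · rw [if_pos h', if_pos (by rw [← h']; simp), h]
  · rw [if_neg h', if_neg]
    intro h2
    apply h'
    rw [h2]
    simp

end mat

section ring

variable {F : Type} [Field F] {G : Type} [Group G] [Fintype G] [DecidableEq G]

theorem Km_dl2 (z w x t : G) :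
    Km (dl F z) (dl F w) x t = if z⁻¹ * x * w⁻¹ = t then 1 else 0 := by
  rw [Km_apply, Finset.sum_eq_single z]
  · unfold dl
    rw [if_pos rfl, one_mul]
    by_cases h : z⁻¹ * x * w⁻¹ = t
    · rw [if_pos h, if_pos]
      rw [← h]
      group
    · rw [if_neg h, if_neg]
      intro h'
      apply h
      rw [← h']
      group
  · intro g _ hg
    unfold dl
    rw [if_neg hg, zero_mul]
  · intro h
    exact absurd (Finset.mem_univ _) h

theorem Km_col (a b : G → F) (x t : G) : Km a b x t = mulF a (mulF (dl F t) b) x := by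
  rw [← Km_mulVec, Matrix.mulVec, dotProduct, Finset.sum_eq_single t]
  · unfold dl
    rw [if_pos rfl, mul_one]
  · intro g _ hg
    unfold dl
    rw [if_neg hg, mul_zero]
  · intro h
    exact absurd (Finset.mem_univ _) h

end ring

/-- `y` is a power of `y ^ N` -/
theorem cu_pow {G : Type} [Group G] [Finite G] {N : ℕ} (hN : N.Coprime (Nat.card G)) (y : G) :
    Cu (y ^ N) = Cu y := by
  have h1 : N.Coprime (orderOf y) := hN.coprime_dvd_right (orderOf_dvd_natCard y)
  obtain ⟨m, hm⟩ := exists_pow_eq_self_of_coprime h1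
  ext x
  rw [Subgroup.mem_centralizer_singleton_iff, Subgroup.mem_centralizer_singleton_iff]
  constructor
  · intro h
    have h2 : Commute x (y ^ N) := h
    have h3 := h2.pow_right m
    rw [hm] at h3
    exact h3
  · intro h
    have h2 : Commute x y := h
    exact (h2.pow_right N).eq

/-- the trace for one block `b` of the centraliser of `y` -/
theorem blk_trace (trg : TrgStmt) (cyc : CycStmt) (ℓ : ℕ) [Fact ℓ.Prime]
    (M : Ideal (integralClosure ℤ ℂ)) [M.IsMaximal] (hM : (ℓ : integralClosure ℤ ℂ) ∈ M)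
    (G : Type) [Group G] [Finite G] (N : ℕ) (hN : N.Coprime (Nat.card G)) (y s : G)
    (hy : El ℓ y) (hs : s ∈ Cu y) (hsr : Reg ℓ s) (b : G → FF M) (hb : Bx (Cu y) b)
    (hcj : ∀ g : G, g * y * g⁻¹ = y ^ N → cj g b ≠ b) :
    ∑ᶠ χ ∈ Irr G, gbv (Cu y) (y ^ N * s) (eh M (fun t : Cu y => b t)) χ *
      starRingEnd ℂ (gbv (Cu y) (y * s) (eh M (fun t : Cu y => b t)) χ) = 0 := by
  classical
  have hℓ : ℓ.Prime := Fact.out
  have := Fintype.ofFinite G
  have hF : GoodF ℓ (FF M) := H50.fld ℓ hℓ M hM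
  haveI hchar : CharP (FF M) ℓ := hF.char
  obtain ⟨n, hyn⟩ := hy
  obtain ⟨y', hy'⟩ : ∃ y', y' = y ^ N := ⟨_, rfl⟩
  rw [← hy'] at hcj ⊢
  have hyC : y ∈ Cu y := u_mem y
  have hy'C : y' ∈ Cu y := by
    rw [hy']
    exact (Cu y).pow_mem hyC N
  have hm0 : 0 < orderOf s := orderOf_pos s
  have hml : ¬ ℓ ∣ orderOf s := (Nat.Prime.coprime_iff_not_dvd hℓ).1 (Nat.Coprime.symm hsr)
  have hcomm : Commute y s := by
    have := (Subgroup.mem_centralizer_iff.1 hs) y (Set.mem_singleton y)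
    exact this
  have hcomm' : Commute y' s := by
    rw [hy']
    exact hcomm.pow_left N
  obtain ⟨b₀, hb₀⟩ : ∃ b₀ : Cu y → FF M, b₀ = fun t : Cu y => b t := ⟨_, rfl⟩
  rw [← hb₀]
  have hbI : IsIdem b₀ := by
    rw [hb₀]
    exact hb.blk.1
  obtain ⟨h1, h2, -⟩ := KF.H25.idm M (Cu y) b₀ hbI
  -- over the complex numbers
  set bh : Cu y → ℂ := eh M b₀ with hbh
  set B : G → ℂ := PP.ext0 (Cu y) bh with hB
  have hBB : mulF B B = B := e0_idem y bh h2.2
  have hBz : ∀ z ∈ Cu y, mulF B (dl ℂ z) = mulF (dl ℂ z) B := fun z hz => dl_comm' y bh h2.1 hz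
  set P : Matrix G G ℂ := Km B B with hP
  set σ : Equiv.Perm G := (Equiv.mulLeft y'⁻¹).trans (Equiv.mulRight y) with hσdef
  have hσ1 : ∀ x, σ x = y'⁻¹ * x * y := fun x => rfl
  have hσ2 : ∀ x, σ⁻¹ x = y' * x * y⁻¹ := by
    intro x
    apply σ.injective
    rw [hσ1]
    change σ (σ⁻¹ x) = _
    rw [← Equiv.Perm.mul_apply, mul_inv_cancel, Equiv.Perm.one_apply]
    rw [hσ1]
    group
  have hσ : ∀ (k : ℕ) (x : G), (σ ^ k) x = (y' ^ k)⁻¹ * x * y ^ k := by
    intro k
    induction k with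
    | zero => intro x; simp
    | succ k ih =>
      intro x
      rw [pow_succ', Equiv.Perm.mul_apply, hσ1, ih, pow_succ y' k, pow_succ y k]
      group
  have hy'n : y' ^ ℓ ^ n = 1 := by
    rw [hy', ← pow_mul, mul_comm, pow_mul, hyn, one_pow]
  obtain ⟨c, hc01, hcl, hcs⟩ := cyc ℓ G σ n (by
    ext x
    rw [hσ, hyn, hy'n]
    simp)
  set U : Matrix G G ℂ := Km (dl ℂ y') (dl ℂ y⁻¹) with hU
  set W : Matrix G G ℂ := Km (dl ℂ y'⁻¹) (dl ℂ y) with hW
  set V : Matrix G G ℂ := Km (dl ℂ s) (dl ℂ s⁻¹) with hV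
  set X : Matrix G G ℂ := Matrix.diagonal (fun x => (c x : ℂ)) with hX
  have hUp : U = pm ℂ σ := by
    ext x t
    rw [hU, Km_dl2, pm, Matrix.of_apply, inv_inv, hσ1]
  have hWp : W = pm ℂ σ⁻¹ := by
    ext x t
    rw [hW, Km_dl2, pm, Matrix.of_apply, inv_inv, hσ2]
  have hPP : P * P = P := by rw [hP, Km_mul, hBB]
  have hUP : U * P = P * U := by
    rw [hU, hP, Km_mul, Km_mul, ← hBz y' hy'C, hBz _ ((Cu y).inv_mem hyC)]
  have hVP : V * P = P * V := by
    rw [hV, hP, Km_mul, Km_mul, ← hBz s hs, hBz _ ((Cu y).inv_mem hs)]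
  have hUV : U * V = Km (dl ℂ (y' * s)) (dl ℂ (y * s)⁻¹) := by
    rw [hU, hV, Km_mul, dl_dl, dl_dl, ← mul_inv_rev]
  have hVU : U * V = V * U := by
    rw [hUV, hU, hV, Km_mul, dl_dl, dl_dl, ← mul_inv_rev, ← hcomm.eq, ← hcomm'.eq]
  have hUW : U * W = 1 := by
    rw [hUp, hWp, pm_pm, inv_mul_cancel, pm_one]
  have hVm : V ^ orderOf s = 1 := by
    rw [hV, Km_dl_pow, pow_orderOf_eq_one, inv_one, Km_one]
  have hXU : X * U ^ ℓ = U ^ ℓ * X := by
    rw [hUp, pm_pow, hX]
    apply pm_diag_comm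
    intro x
    rw [hcl]
  -- the reductions
  set B' : G → FF M := PP.ext0 (Cu y) b₀ with hB'
  have hB'b : B' = b := by
    funext x
    by_cases hx : x ∈ Cu y
    · rw [hB', e0_app y b₀ ⟨x, hx⟩, hb₀]
    · rw [hB', e0_supp y b₀ x hx, hb.supp x hx]
  have hBr : ∀ g, B g ∈ RM M ∧ rr M (B g) = B' g := by
    intro g
    by_cases hg : g ∈ Cu y
    · rw [hB, hB', e0_app y bh ⟨g, hg⟩, e0_app y b₀ ⟨g, hg⟩]
      exact h1 _
    · rw [hB, hB', e0_supp y bh g hg, e0_supp y b₀ g hg]
      exact ⟨(RM M).zero_mem, rr_zero⟩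
  have hBB' : (fun g => rr M (B g)) = B' := funext fun g => (hBr g).2
  have hPR : ∀ i j, P i j ∈ RM M := fun i j => Km_RM (fun g => (hBr g).1) (fun g => (hBr g).1) i j
  have hzR : ∀ z w : G, ∀ i j, Km (dl ℂ z) (dl ℂ w) i j ∈ RM M := fun z w i j =>
    Km_RM (fun g => (dl_RM z g).1) (fun g => (dl_RM w g).1) i j
  have hcR : ∀ x, ((c x : ℕ) : ℂ) ∈ RM M ∧ rr M ((c x : ℕ) : ℂ) = (c x : FF M) := by
    intro x
    rcases hc01 x with h | h
    · rw [h, Nat.cast_zero, Nat.cast_zero]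
      exact ⟨(RM M).zero_mem, rr_zero⟩
    · rw [h, Nat.cast_one, Nat.cast_one]
      exact ⟨(RM M).one_mem, rr_one⟩
  have hXR : ∀ i j, X i j ∈ RM M := by
    intro i j
    rw [hX, Matrix.diagonal_apply]
    split_ifs
    · exact (hcR i).1
    · exact (RM M).zero_mem
  have hPm : P.map (rr M) = Km B' B' := by
    rw [hP, Km_map (fun g => (hBr g).1) (fun g => (hBr g).1), hBB']
  have hpmm : ∀ τ : Equiv.Perm G, (pm ℂ τ).map (rr M) = pm (FF M) τ := by
    intro τ
    ext x t
    rw [Matrix.map_apply, pm, pm, Matrix.of_apply, Matrix.of_apply]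
    split_ifs
    · exact rr_one
    · exact rr_zero
  have hXm : X.map (rr M) = Matrix.diagonal (fun x => (c x : FF M)) := by
    ext x t
    rw [Matrix.map_apply, hX, Matrix.diagonal_apply, Matrix.diagonal_apply]
    split_ifs
    · exact (hcR x).2
    · exact rr_zero
  set π : Matrix G G (FF M) := Matrix.diagonal (fun x => if σ x = x then (1 : FF M) else 0) with hπ
  have hsumX : ∑ i ∈ Finset.range ℓ, U.map (rr M) ^ i * X.map (rr M) * W.map (rr M) ^ i =
      1 - π := by
    have e1 : ∀ i, U.map (rr M) ^ i * X.map (rr M) * W.map (rr M) ^ i =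
        Matrix.diagonal (fun x => (c ((σ ^ i) x) : FF M)) := by
      intro i
      rw [hUp, hWp, hpmm, hpmm, hXm, pm_diag]
    rw [Finset.sum_congr rfl fun i _ => e1 i]
    ext x t
    rw [Matrix.sum_apply, Matrix.sub_apply, hπ, Matrix.one_apply, Matrix.diagonal_apply]
    by_cases hxt : x = t
    · rw [if_pos hxt, if_pos hxt]
      simp only [Matrix.diagonal_apply, if_pos hxt]
      rw [← Nat.cast_sum]
      by_cases hx : σ x = x
      · rw [if_pos hx, sub_self]
        have e2 : ∀ i, (σ ^ i) x = x := by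
          intro i
          induction i with
          | zero => rfl
          | succ i ih => rw [pow_succ', Equiv.Perm.mul_apply, ih, hx]
        rw [Finset.sum_congr rfl fun i _ => by rw [e2 i], Finset.sum_const, Finset.card_range,
          smul_eq_mul, Nat.cast_mul, CharP.cast_eq_zero, zero_mul]
      · rw [if_neg hx, sub_zero, hcs x hx, Nat.cast_one]
    · rw [if_neg hxt, if_neg hxt, sub_self]
      refine Finset.sum_eq_zero fun i _ => ?_
      rw [Matrix.diagonal_apply, if_neg hxt]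
  have hPπ : P.map (rr M) * π = 0 := by
    ext x t
    rw [hπ, Matrix.mul_diagonal, Matrix.zero_apply]
    by_cases ht : σ t = t
    · rw [if_pos ht, mul_one, hPm, Km_col, hB'b]
      have h3 : t * y * t⁻¹ = y' := by
        rw [hσ1] at ht
        have : t * y = y' * t := by
          conv_rhs => rw [← ht]
          group
        rw [this]
        group
      have h5 : Cu y' = Cu y := by
        rw [hy']
        exact cu_pow hN y
      have h4 : t ∈ Subgroup.normalizer ((Cu y : Subgroup G) : Set G) := by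
        rw [Subgroup.mem_normalizer_iff]
        intro z
        change z ∈ Cu y ↔ t * z * t⁻¹ ∈ Cu y
        conv_rhs => rw [← h5]
        rw [Subgroup.mem_centralizer_singleton_iff, Subgroup.mem_centralizer_singleton_iff, ← h3]
        constructor
        · intro h
          calc t * z * t⁻¹ * (t * y * t⁻¹) = t * (z * y) * t⁻¹ := by group
            _ = t * (y * z) * t⁻¹ := by rw [h]
            _ = t * y * t⁻¹ * (t * z * t⁻¹) := by group
        · intro h
          have e1 : z * y = t⁻¹ * (t * z * t⁻¹ * (t * y * t⁻¹)) * t := by group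
          rw [e1, h]
          group
      have h6 : mulF b (cj t b) = 0 := by
        rcases Bx.dich hb (hb.cj h4) with h7 | h7
        · exact absurd h7.symm (hcj t h3)
        · exact h7
      rw [dl_move, ← H20.mulF_assoc, h6, H20.zero_mulF, Pi.zero_apply]
    · rw [if_neg ht, mul_zero]
  have hPPm : P.map (rr M) * P.map (rr M) = P.map (rr M) := by
    rw [← map_rr_mul hPR hPR, hPP]
  have hred : P.map (rr M) * (∑ i ∈ Finset.range ℓ, U.map (rr M) ^ i * X.map (rr M) *
      W.map (rr M) ^ i) * P.map (rr M) = P.map (rr M) := by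
    rw [hsumX, mul_sub, mul_one, hPπ, sub_zero, hPPm]
  have key := trg ℓ M hM G P U W V X (orderOf s) hm0 hml hPR (hzR y' y⁻¹) (hzR y'⁻¹ y)
    (hzR s s⁻¹) hXR hPP hUW hVm hUP hVP hVU hXU hred
  have hUVP : U * V * P = Km (mulF (dl ℂ (y' * s)) B) (mulF B (dl ℂ (y * s)⁻¹)) := by
    rw [hUV, hP, Km_mul]
  rw [hUVP] at key
  have htr : (Km (mulF (dl ℂ (y' * s)) B) (mulF B (dl ℂ (y * s)⁻¹))).trace =
      ∑ᶠ χ ∈ Irr G, chv (mulF (dl ℂ (y' * s)) B) χ * chv (mulF B (dl ℂ (y * s)⁻¹)) χ := by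
    rw [KF.trc G, finsum_eq_sum_of_fintype, Matrix.trace]
    refine Finset.sum_congr rfl fun x _ => ?_
    rw [Matrix.diag_apply, finsum_eq_sum_of_fintype, Km_apply]
  rw [htr] at key
  rw [← key]
  refine finsum_mem_congr rfl fun χ hχ => ?_
  rw [hB, chv_left, chv_right, hbh, gbv_conj y (y * s) b₀ hχ]

end Pool.Agent.PP.T3.H98
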